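import Pool.Agent.W394.BQN.Stm

/-!
# Part V3 of project BQN: making the trailing coefficient invertible
-/

set_option autoImplicit false

open Polynomial

noncomputable section

namespace Pool.Agent.W569.BQN

open Pool.Agent.W394.BQN
open BQ

/-- rows related by a matrix of `GG` -/
def Rel (R : Type) [CommRing R] (α β α' β' : R) : Prop :=
  ∃ M ∈ GG R, α' = α * M 0 0 + β * M 1 0 ∧ β' = α * M 0 1 + β * M 1 1

theorem rel_refl {R : Type} [CommRing R] (α β : R) : Rel R α β α β :=
  ⟨1, one_mem _, by simp, by simp⟩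

theorem rel_trans {R : Type} [CommRing R] {α β α' β' α'' β'' : R} (h : Rel R α β α' β')
    (h' : Rel R α' β' α'' β'') : Rel R α β α'' β'' := by
  obtain ⟨M, hM, h1, h2⟩ := h
  obtain ⟨M', hM', h3, h4⟩ := h'
  refine ⟨M * M', mul_mem hM hM', ?_, ?_⟩
  · rw [h3, h1, h2]
    simp only [Matrix.mul_apply, Fin.sum_univ_two]
    ring
  · rw [h4, h1, h2]
    simp only [Matrix.mul_apply, Fin.sum_univ_two]
    ring

theorem rel_up {R : Type} [CommRing R] (α β c : R) : Rel R α β α (β + c * α) := by
  refine ⟨!![1, c; 0, 1], Submonoid.subset_closure (Or.inl ⟨c, rfl⟩), ?_, ?_⟩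
  · simp
  · simp
    ring

theorem rel_low {R : Type} [CommRing R] (α β c : R) : Rel R α β (α + c * β) β := by
  refine ⟨!![1, 0; c, 1], Submonoid.subset_closure (Or.inr (Or.inl ⟨c, rfl⟩)), ?_, ?_⟩
  · simp
    ring
  · simp

theorem rel_diag {R : Type} [CommRing R] (α β u v : R) (hu : IsUnit u) (hv : IsUnit v) :
    Rel R α β (u * α) (v * β) := by
  refine ⟨!![u, 0; 0, v], Submonoid.subset_closure (Or.inr (Or.inr ⟨u, v, hu, hv, rfl⟩)), ?_, ?_⟩
  · simp
    ring
  · simp
    ring

theorem rel_coprime {R : Type} [CommRing R] {α β α' β' : R} (h : Rel R α β α' β')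
    (hc : IsCoprime α β) : IsCoprime α' β' := by
  obtain ⟨M, hM, rfl, rfl⟩ := h
  have key : ∀ α β : R, IsCoprime α β →
      IsCoprime (α * M 0 0 + β * M 1 0) (α * M 0 1 + β * M 1 1) := by
    induction hM using Submonoid.closure_induction with
    | mem x hx =>
      rcases hx with ⟨c, rfl⟩ | ⟨c, rfl⟩ | ⟨u, v, hu, hv, rfl⟩
      · rintro α β ⟨s, t, h⟩
        refine ⟨s - t * c, t, ?_⟩
        simp
        linear_combination h
      · rintro α β ⟨s, t, h⟩
        refine ⟨s, t - s * c, ?_⟩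
        simp
        linear_combination h
      · rintro α β ⟨s, t, h⟩
        obtain ⟨u', hu'⟩ := hu.exists_right_inv
        obtain ⟨v', hv'⟩ := hv.exists_right_inv
        refine ⟨s * u', t * v', ?_⟩
        simp
        linear_combination h + s * α * hu' + t * β * hv'
    | one =>
      intro α β h
      simpa using h
    | mul x y _ _ hx hy =>
      intro α β h
      have h1 := hy _ _ (hx _ _ h)
      have e1 : α * (x * y) 0 0 + β * (x * y) 1 0 =
          (α * x 0 0 + β * x 1 0) * y 0 0 + (α * x 0 1 + β * x 1 1) * y 1 0 := by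
        simp only [Matrix.mul_apply, Fin.sum_univ_two]
        ring
      have e2 : α * (x * y) 0 1 + β * (x * y) 1 1 =
          (α * x 0 0 + β * x 1 0) * y 0 1 + (α * x 0 1 + β * x 1 1) * y 1 1 := by
        simp only [Matrix.mul_apply, Fin.sum_univ_two]
        ring
      rw [e1, e2]
      exact h1
  exact key _ _ hc

theorem tc_eq {D : Type} [CommRing D] (f : D[X]) (h : f.coeff 0 ≠ 0) :
    f.trailingCoeff = f.coeff 0 := by
  have : f.natTrailingDegree = 0 := by
    rw [natTrailingDegree_eq_zero]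
    exact Or.inr h
  rw [trailingCoeff, this]

section

variable {D : Type} [CommRing D] [IsDomain D]

/-- the polynomial `X ^ N + 1` -/
def U (N : ℕ) : D[X] := X ^ N + C 1

theorem U_monic (N : ℕ) (hN : 1 ≤ N) : (U N : D[X]).Monic := monic_X_pow_add_C 1 (by omega)

theorem U_deg (N : ℕ) : (U N : D[X]).natDegree = N := natDegree_X_pow_add_C

theorem U_coeff (N : ℕ) (hN : 1 ≤ N) : (U N : D[X]).coeff 0 = 1 := by
  have : 0 ≠ N := by omega
  simp [U, coeff_X_pow, this]

theorem U_unit (N : ℕ) (hN : 1 ≤ N) : IsUnit (algebraMap D[X] (VV D) (U N)) := by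
  have h : (U N : D[X]) ∈ S2 D := by
    refine ⟨U_monic N hN, ?_⟩
    show (U N : D[X]).trailingCoeff = 1
    rw [tc_eq _ (by rw [U_coeff N hN]; exact one_ne_zero), U_coeff N hN]
  exact IsLocalization.map_units (VV D) (⟨_, h⟩ : S2 D)

theorem X_unit (k : ℕ) : IsUnit (algebraMap D[X] (VV D) (X ^ k)) := by
  have h : (X ^ k * 1 : D[X]) ∈ S2 D := E.mem_S2_of k 1 monic_one (by simp)
  rw [mul_one] at h
  exact IsLocalization.map_units (VV D) (⟨_, h⟩ : S2 D)

/-- adding multiples after multiplication with `X ^ N + 1` -/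
theorem rel_U_up (N : ℕ) (hN : 1 ≤ N) (P B : D[X]) (c : D) :
    Rel (VV D) (algebraMap D[X] (VV D) P) (algebraMap D[X] (VV D) B)
      (algebraMap D[X] (VV D) (U N * P)) (algebraMap D[X] (VV D) (U N * B + C c * P)) := by
  obtain ⟨w, hw⟩ := (U_unit (D := D) N hN).exists_right_inv
  have h1 := rel_diag (algebraMap D[X] (VV D) P) (algebraMap D[X] (VV D) B) _ _
    (U_unit (D := D) N hN) (U_unit (D := D) N hN)
  have h2 := rel_up (algebraMap D[X] (VV D) (U N) * algebraMap D[X] (VV D) P)
    (algebraMap D[X] (VV D) (U N) * algebraMap D[X] (VV D) B)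
    (algebraMap D[X] (VV D) (C c) * w)
  have h3 := rel_trans h1 h2
  convert h3 using 1
  · rw [map_mul]
  · rw [map_add, map_mul, map_mul]
    linear_combination (-(algebraMap D[X] (VV D) (C c)) * algebraMap D[X] (VV D) P) * hw

theorem rel_U_low (N : ℕ) (hN : 1 ≤ N) (P B : D[X]) (c : D) :
    Rel (VV D) (algebraMap D[X] (VV D) P) (algebraMap D[X] (VV D) B)
      (algebraMap D[X] (VV D) (U N * P + C c * B)) (algebraMap D[X] (VV D) (U N * B)) := by
  obtain ⟨w, hw⟩ := (U_unit (D := D) N hN).exists_right_inv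
  have h1 := rel_diag (algebraMap D[X] (VV D) P) (algebraMap D[X] (VV D) B) _ _
    (U_unit (D := D) N hN) (U_unit (D := D) N hN)
  have h2 := rel_low (algebraMap D[X] (VV D) (U N) * algebraMap D[X] (VV D) P)
    (algebraMap D[X] (VV D) (U N) * algebraMap D[X] (VV D) B)
    (algebraMap D[X] (VV D) (C c) * w)
  have h3 := rel_trans h1 h2
  convert h3 using 1
  · rw [map_add, map_mul, map_mul]
    linear_combination (-(algebraMap D[X] (VV D) (C c)) * algebraMap D[X] (VV D) B) * hw
  · rw [map_mul]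

theorem phi (N : ℕ) (hN : 1 ≤ N) {M : Matrix (Fin 2) (Fin 2) D} (hM : M ∈ E2 D) :
    ∀ P B : D[X], P ≠ 0 → B.natDegree < P.natDegree + N →
      ∃ P' B' : D[X], P' ≠ 0 ∧ B'.natDegree < P'.natDegree + N ∧
        P'.leadingCoeff = P.leadingCoeff ∧
        P'.coeff 0 = P.coeff 0 * M 0 0 + B.coeff 0 * M 1 0 ∧
        B'.coeff 0 = P.coeff 0 * M 0 1 + B.coeff 0 * M 1 1 ∧
        Rel (VV D) (algebraMap D[X] (VV D) P) (algebraMap D[X] (VV D) B)
          (algebraMap D[X] (VV D) P') (algebraMap D[X] (VV D) B') := by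
  have hU0 : (U N : D[X]) ≠ 0 := (U_monic N hN).ne_zero
  induction hM using Submonoid.closure_induction with
  | mem x hx =>
    rcases hx with ⟨c, rfl⟩ | ⟨c, rfl⟩
    · intro P B hP hdeg
      have hd1 : (U N * P).natDegree = N + P.natDegree := by
        rw [natDegree_mul hU0 hP, U_deg]
      refine ⟨U N * P, U N * B + C c * P, mul_ne_zero hU0 hP, ?_, ?_, ?_, ?_,
        rel_U_up N hN P B c⟩
      · rw [hd1]
        have h1 : (U N * B).natDegree ≤ N + B.natDegree := by
          refine natDegree_mul_le.trans ?_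
          rw [U_deg]
        have h2 : (C c * P).natDegree ≤ P.natDegree := natDegree_C_mul_le c P
        have h3 := natDegree_add_le (U N * B) (C c * P)
        have h4 : max (U N * B).natDegree (C c * P).natDegree ≤
            max (N + B.natDegree) P.natDegree := max_le_max h1 h2
        have h5 : max (N + B.natDegree) P.natDegree < N + P.natDegree + N :=
          max_lt (by omega) (by omega)
        omega
      · rw [leadingCoeff_mul, (U_monic N hN).leadingCoeff, one_mul]
      · rw [mul_coeff_zero, U_coeff N hN]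
        simp
      · rw [coeff_add, mul_coeff_zero, mul_coeff_zero, U_coeff N hN]
        simp
        ring
    · intro P B hP hdeg
      have hd1 : (U N * P).natDegree = N + P.natDegree := by
        rw [natDegree_mul hU0 hP, U_deg]
      have h2 : (C c * B).natDegree ≤ B.natDegree := natDegree_C_mul_le c B
      have hlt : (C c * B).natDegree < (U N * P).natDegree := by omega
      have hdeglt : (C c * B).degree < (U N * P).degree := degree_lt_degree hlt
      have hlc : (U N * P + C c * B).leadingCoeff = P.leadingCoeff := by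
        rw [leadingCoeff_add_of_degree_lt' hdeglt, leadingCoeff_mul,
          (U_monic N hN).leadingCoeff, one_mul]
      have hdP : (U N * P + C c * B).natDegree = N + P.natDegree := by
        rw [natDegree_add_eq_left_of_natDegree_lt hlt, hd1]
      refine ⟨U N * P + C c * B, U N * B, ?_, ?_, hlc, ?_, ?_, rel_U_low N hN P B c⟩
      · intro h0
        rw [h0, leadingCoeff_zero] at hlc
        exact hP (leadingCoeff_eq_zero.1 hlc.symm)
      · rw [hdP]
        have h1 : (U N * B).natDegree ≤ N + B.natDegree := by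
          refine natDegree_mul_le.trans ?_
          rw [U_deg]
        omega
      · rw [coeff_add, mul_coeff_zero, mul_coeff_zero, U_coeff N hN]
        simp
        ring
      · rw [mul_coeff_zero, U_coeff N hN]
        simp
  | one =>
    intro P B hP hdeg
    exact ⟨P, B, hP, hdeg, rfl, by simp, by simp, rel_refl _ _⟩
  | mul x y _ _ hx hy =>
    intro P B hP hdeg
    obtain ⟨P1, B1, a1, a2, a3, a4, a5, a6⟩ := hx P B hP hdeg
    obtain ⟨P2, B2, b1, b2, b3, b4, b5, b6⟩ := hy P1 B1 a1 a2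
    refine ⟨P2, B2, b1, b2, b3.trans a3, ?_, ?_, rel_trans a6 b6⟩
    · rw [b4, a4, a5]
      simp only [Matrix.mul_apply, Fin.sum_univ_two]
      ring
    · rw [b5, a4, a5]
      simp only [Matrix.mul_apply, Fin.sum_univ_two]
      ring

theorem stepA (p r x y : D[X]) (hf : p * x + r * y ∈ S2 D) (hg0 : p.coeff 0 ≠ 0)
    (hg : ¬ IsUnit (p.coeff 0)) :
    ∃ (k : ℕ) (q c : D[X]), r = q * p + X ^ k * c ∧ ¬ p.coeff 0 ∣ c.coeff 0 := by
  by_contra hcon
  push Not at hcon
  have key : ∀ k : ℕ, ∃ q c : D[X], r = q * p + X ^ k * c := by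
    intro k
    induction k with
    | zero => exact ⟨0, r, by simp⟩
    | succ k ih =>
      obtain ⟨q, c, h⟩ := ih
      obtain ⟨e, he⟩ := hcon k q c h
      have h0 : (c - C e * p).coeff 0 = 0 := by
        rw [coeff_sub, coeff_C_mul, he]
        ring
      obtain ⟨c', hc'⟩ := X_dvd_iff.2 h0
      refine ⟨q + C e * X ^ k, c', ?_⟩
      linear_combination h + X ^ k * hc'
  obtain ⟨n, f₀, hf₀, -, hf1⟩ := E.factor_aux _ hf.1 hf.2
  obtain ⟨q, c, h⟩ := key (n + 1)
  have h1 : p * (x + q * y) = X ^ n * (f₀ - X * (c * y)) := by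
    linear_combination hf₀ - y * h
  have h2 : (f₀ - X * (c * y)).coeff 0 = 1 := by
    rw [coeff_sub, mul_coeff_zero, coeff_X_zero, hf1]
    ring
  have h3 := congrArg trailingCoeff h1
  have h4 : (X ^ n : D[X]).trailingCoeff = 1 := by
    have h5 : (X ^ n * 1 : D[X]) ∈ S2 D := E.mem_S2_of n 1 monic_one (by simp)
    rw [mul_one] at h5
    exact h5.2
  rw [trailingCoeff_mul, trailingCoeff_mul, h4, tc_eq p hg0,
    tc_eq (f₀ - X * (c * y)) (by rw [h2]; exact one_ne_zero), h2, one_mul] at h3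
  exact hg (IsUnit.of_mul_eq_one _ h3)

theorem coprime_S2 (p r : D[X])
    (h : IsCoprime (algebraMap D[X] (VV D) p) (algebraMap D[X] (VV D) r)) :
    ∃ x y : D[X], p * x + r * y ∈ S2 D := by
  obtain ⟨u, v, huv⟩ := h
  obtain ⟨⟨x1, s1⟩, h1⟩ := IsLocalization.surj (S2 D) u
  obtain ⟨⟨y1, s2⟩, h2⟩ := IsLocalization.surj (S2 D) v
  simp only at h1 h2
  refine ⟨x1 * s2, y1 * s1, ?_⟩
  have h3 : p * (x1 * s2) + r * (y1 * s1) = (s1 : D[X]) * s2 := by
    apply IsLocalization.injective (M := S2 D) (VV D) (E.S2_le D)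
    rw [map_add, map_mul, map_mul, map_mul, map_mul, map_mul, ← h1, ← h2]
    linear_combination (algebraMap D[X] (VV D) s1 * algebraMap D[X] (VV D) s2) * huv
  rw [h3]
  exact mul_mem s1.2 s2.2

end

theorem main {D : Type} [CommRing D] [IsDomain D] [IsPrincipalIdealRing D] (hE : E2T D)
    (I : Ideal D) : ∀ p r : D[X], Ideal.span {p.coeff 0} = I → p.coeff 0 ≠ 0 →
      IsUnit p.leadingCoeff →
      IsCoprime (algebraMap D[X] (VV D) p) (algebraMap D[X] (VV D) r) →
      ∃ p' r' : D[X], IsUnit p'.leadingCoeff ∧ IsUnit p'.trailingCoeff ∧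
        Rel (VV D) (algebraMap D[X] (VV D) p) (algebraMap D[X] (VV D) r)
          (algebraMap D[X] (VV D) p') (algebraMap D[X] (VV D) r') := by
  induction I using (wellFounded_gt (α := Ideal D)).induction with
  | _ I ih =>
  intro p r hI hg0 hlc hcop
  by_cases hu : IsUnit (p.coeff 0)
  · refine ⟨p, r, hlc, ?_, rel_refl _ _⟩
    rw [tc_eq p hg0]
    exact hu
  obtain ⟨x, y, hf⟩ := coprime_S2 p r hcop
  obtain ⟨k, q, c, hr, hnd⟩ := stepA p r x y hf hg0 hu
  have R1 : Rel (VV D) (algebraMap D[X] (VV D) p) (algebraMap D[X] (VV D) r)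
      (algebraMap D[X] (VV D) p) (algebraMap D[X] (VV D) c) := by
    obtain ⟨w, hw⟩ := (X_unit (D := D) k).exists_left_inv
    have hwu : IsUnit w := IsUnit.of_mul_eq_one _ hw
    have h1 := rel_up (algebraMap D[X] (VV D) p) (algebraMap D[X] (VV D) r)
      (-(algebraMap D[X] (VV D) q))
    have h2 := rel_trans h1 (rel_diag _ _ 1 w isUnit_one hwu)
    convert h2 using 1
    · rw [one_mul]
    · rw [hr, map_add, map_mul, map_mul]
      linear_combination (-(algebraMap D[X] (VV D) c)) * hw
  -- the greatest common divisor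
  obtain ⟨d, hd⟩ := (IsPrincipalIdealRing.principal
    (Ideal.span {p.coeff 0, c.coeff 0})).principal
  have hd1 : p.coeff 0 ∈ Ideal.span ({d} : Set D) := by
    rw [Ideal.span, ← hd]
    exact Ideal.subset_span (by simp)
  have hd2 : c.coeff 0 ∈ Ideal.span ({d} : Set D) := by
    rw [Ideal.span, ← hd]
    exact Ideal.subset_span (by simp)
  have hd3 : d ∈ Ideal.span ({p.coeff 0, c.coeff 0} : Set D) := by
    rw [hd]
    exact Submodule.mem_span_singleton_self d
  obtain ⟨g1, hg1⟩ := Ideal.mem_span_singleton.1 hd1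
  obtain ⟨h1, hh1⟩ := Ideal.mem_span_singleton.1 hd2
  obtain ⟨s, t, hst⟩ := Ideal.mem_span_pair.1 hd3
  have hd0 : d ≠ 0 := by
    rintro rfl
    exact hg0 (by rw [hg1, zero_mul])
  have hco : IsCoprime g1 h1 := by
    refine ⟨s, t, mul_left_cancel₀ hd0 ?_⟩
    rw [hg1, hh1] at hst
    linear_combination hst
  obtain ⟨M0, hM0, e1, -⟩ := hE g1 h1 hco
  have hp0 : p ≠ 0 := by
    rintro rfl
    exact hg0 (by simp)
  obtain ⟨P', B', a1, -, a3, a4, -, a6⟩ := phi (c.natDegree + 1) (by omega) hM0 p c hp0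
    (by omega)
  have hPd : P'.coeff 0 = d := by
    rw [a4, hg1, hh1]
    linear_combination d * e1
  have R2 := rel_trans R1 a6
  have hlt : I < Ideal.span {P'.coeff 0} := by
    rw [← hI, hPd]
    refine lt_of_le_of_ne (Ideal.span_singleton_le_span_singleton.2 ⟨g1, hg1⟩) ?_
    intro heq
    have h5 : p.coeff 0 ∣ d := by
      rw [← Ideal.mem_span_singleton, heq]
      exact Ideal.mem_span_singleton_self d
    exact hnd (h5.trans ⟨h1, hh1⟩)
  obtain ⟨p2, r2, b1, b2, b3⟩ := ih _ hlt P' B' rfl (by rw [hPd]; exact hd0)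
    (by rw [a3]; exact hlc) (rel_coprime R2 hcop)
  exact ⟨p2, r2, b1, b2, rel_trans R2 b3⟩

theorem t_V3 : S_V3 := by
  intro D _ _ _ hE p r x y hf hlc
  have hp0 : p ≠ 0 := by
    rintro rfl
    rw [leadingCoeff_zero] at hlc
    exact hlc.ne_zero rfl
  have hdvd : X ^ p.natTrailingDegree ∣ p := by
    rw [X_pow_dvd_iff]
    intro d hd
    exact coeff_eq_zero_of_lt_natTrailingDegree hd
  obtain ⟨g, hg⟩ := hdvd
  have hlcg : g.leadingCoeff = p.leadingCoeff := by
    have : (X ^ p.natTrailingDegree * g).leadingCoeff = g.leadingCoeff := by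
      rw [leadingCoeff_mul, leadingCoeff_X_pow, one_mul]
    rw [← this, ← hg]
  have hg0 : g.coeff 0 ≠ 0 := by
    have h3 : (X ^ p.natTrailingDegree * g).coeff (0 + p.natTrailingDegree) = g.coeff 0 := by
      rw [mul_comm, coeff_mul_X_pow]
    rw [← h3, ← hg, zero_add]
    exact trailingCoeff_nonzero_iff_nonzero.2 hp0
  have hcop : IsCoprime (algebraMap D[X] (VV D) p) (algebraMap D[X] (VV D) r) := by
    have hunit := IsLocalization.map_units (VV D) (⟨_, hf⟩ : S2 D)
    obtain ⟨w, hw⟩ := hunit.exists_right_inv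
    simp only [map_add, map_mul] at hw
    exact ⟨algebraMap D[X] (VV D) x * w, algebraMap D[X] (VV D) y * w, by
      linear_combination hw⟩
  have R1 : Rel (VV D) (algebraMap D[X] (VV D) p) (algebraMap D[X] (VV D) r)
      (algebraMap D[X] (VV D) g) (algebraMap D[X] (VV D) r) := by
    obtain ⟨w, hw⟩ := (X_unit (D := D) p.natTrailingDegree).exists_left_inv
    have hwu : IsUnit w := IsUnit.of_mul_eq_one _ hw
    have h2 := rel_diag (algebraMap D[X] (VV D) p) (algebraMap D[X] (VV D) r) w 1 hwu isUnit_one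
    convert h2 using 1
    · conv_rhs => rw [hg, map_mul]
      linear_combination (-(algebraMap D[X] (VV D) g)) * hw
    · rw [one_mul]
  obtain ⟨p', r', h1, h2, h3⟩ := main hE _ g r rfl hg0 (by rw [hlcg]; exact hlc)
    (rel_coprime R1 hcop)
  obtain ⟨M, hM, h4, h5⟩ := rel_trans R1 h3
  exact ⟨M, hM, p', r', h1, h2, h4, h5⟩

end Pool.Agent.W569.BQN
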